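import Pool.Agent.SGP.Stmts

/-!
# Squad SGP (MP_41797f_co), row PW2: orders with at most two active vertices have a colouring with
three colours
-/

noncomputable section

namespace Pool.Agent.SGP.H24

open Pool.Agent.SGE

theorem ex_color {n : ℕ} (S : Set (Fin n)) (hS : S.ncard ≤ 2) (g : Fin n → Fin 3) :
    ∃ c : Fin 3, ∀ i ∈ S, g i ≠ c := by
  by_contra h
  push Not at h
  have h0 : (Set.univ : Set (Fin 3)) ⊆ g '' S := fun c _ => h c
  have h1 := Set.ncard_le_ncard h0 (Set.toFinite _)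
  have h2 := Set.ncard_image_le (f := g) (Set.toFinite S)
  rw [Set.ncard_univ, Nat.card_eq_fintype_card, Fintype.card_fin] at h1
  omega

theorem ex_col {n : ℕ} (A : Fin n → Fin n → Prop)
    (hA : ∀ l, {i : Fin n | i < l ∧ A i l}.ncard ≤ 2) :
    ∃ w : Fin n → Fin 3, ∀ i l, i < l → A i l → w l ≠ w i := by
  classical
  have step : ∀ (l : Fin n) (g : ∀ i : Fin n, i < l → Fin 3),
      ∃ c : Fin 3, ∀ (i : Fin n) (hi : i < l), A i l → g i hi ≠ c := by
    intro l g
    obtain ⟨c, hc⟩ := ex_color _ (hA l) (fun i => if h : i < l then g i h else 0)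
    refine ⟨c, fun i hi hAi => ?_⟩
    have h1 := hc i ⟨hi, hAi⟩
    rwa [dif_pos hi] at h1
  choose F hF using step
  refine ⟨WellFounded.fix (wellFounded_lt (α := Fin n)) F, fun i l hil hAil => ?_⟩
  have h1 := hF l (fun i _ => WellFounded.fix (wellFounded_lt (α := Fin n)) F i) i hil hAil
  rw [WellFounded.fix_eq (wellFounded_lt (α := Fin n)) F l]
  exact h1.symm

/-- row PW2 -/
theorem pw2 : Pw2Stmt := by
  intro n G σ h
  obtain ⟨w, hw⟩ := ex_col (fun i l => ∃ j, l ≤ j ∧ G.Adj (σ i) (σ j)) h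
  exact ⟨σ, w, fun i j l hil hlj hadj => hw i l hil ⟨j, hlj.le, hadj⟩⟩

end Pool.Agent.SGP.H24
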